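import Pool.Agent.Helper34.SD.Defs

/-!
Module C1 of project SD (MP_41f897_lc, owner helper34): the number of words of length `n` with exactly
`k` letters `true`.
-/

set_option autoImplicit false

namespace Pool.Agent.Helper61.SD

open Pool.Agent.Helper34.SD Pool.Agent.Helper34.PT

private def W (n k : ℕ) : Set (List Bool) := {w : List Bool | w.length = n ∧ w.count true = k}

private theorem W_zero_zero : W 0 0 = {[]} := by
  ext w
  simp only [W, Set.mem_setOf_eq, Set.mem_singleton_iff]
  constructor
  · rintro ⟨h, _⟩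
    exact List.length_eq_zero_iff.1 h
  · rintro rfl
    simp

private theorem W_zero_succ (k : ℕ) : W 0 (k + 1) = ∅ := by
  ext w
  simp only [W, Set.mem_setOf_eq, Set.mem_empty_iff_false, iff_false, not_and]
  intro h
  rw [List.length_eq_zero_iff.1 h]
  simp

private theorem W_succ_zero (n : ℕ) : W (n + 1) 0 = List.cons false '' W n 0 := by
  ext w
  simp only [W, Set.mem_setOf_eq, Set.mem_image]
  constructor
  · rintro ⟨h1, h2⟩
    match w, h1, h2 with
    | false :: v, h1, h2 =>
      exact ⟨v, ⟨by simpa using h1, by simpa using h2⟩, rfl⟩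
    | true :: v, h1, h2 => simp at h2
  · rintro ⟨v, ⟨h1, h2⟩, rfl⟩
    exact ⟨by simp [h1], by simpa using h2⟩

private theorem W_succ_succ (n k : ℕ) :
    W (n + 1) (k + 1) = List.cons false '' W n (k + 1) ∪ List.cons true '' W n k := by
  ext w
  simp only [W, Set.mem_setOf_eq, Set.mem_union, Set.mem_image]
  constructor
  · rintro ⟨h1, h2⟩
    match w, h1, h2 with
    | false :: v, h1, h2 =>
      exact Or.inl ⟨v, ⟨by simpa using h1, by simpa using h2⟩, rfl⟩
    | true :: v, h1, h2 =>
      exact Or.inr ⟨v, ⟨by simpa using h1, by simpa using h2⟩, rfl⟩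
  · rintro (⟨v, ⟨h1, h2⟩, rfl⟩ | ⟨v, ⟨h1, h2⟩, rfl⟩)
    · exact ⟨by simp [h1], by simpa using h2⟩
    · exact ⟨by simp [h1], by simpa using h2⟩

private theorem cons_inj (b : Bool) : Function.Injective (List.cons b) :=
  fun _ _ h => (List.cons.inj h).2

private theorem main : ∀ n k : ℕ, (W n k).Finite ∧ (W n k).ncard = n.choose k
  | 0, 0 => by
    rw [W_zero_zero]
    exact ⟨Set.finite_singleton _, by simp⟩
  | 0, k + 1 => by
    rw [W_zero_succ]
    exact ⟨Set.finite_empty, by simp⟩
  | n + 1, 0 => by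
    rw [W_succ_zero]
    obtain ⟨h1, h2⟩ := main n 0
    refine ⟨h1.image _, ?_⟩
    rw [Set.ncard_image_of_injective _ (cons_inj false), h2]
    simp
  | n + 1, k + 1 => by
    rw [W_succ_succ]
    obtain ⟨h1, h2⟩ := main n (k + 1)
    obtain ⟨h3, h4⟩ := main n k
    refine ⟨(h1.image _).union (h3.image _), ?_⟩
    rw [Set.ncard_union_eq ?_ (h1.image _) (h3.image _),
      Set.ncard_image_of_injective _ (cons_inj false), Set.ncard_image_of_injective _ (cons_inj true),
      h2, h4, Nat.choose_succ_succ, add_comm]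
    rw [Set.disjoint_left]
    rintro _ ⟨u, _, rfl⟩ ⟨v, _, hv⟩
    simp at hv

theorem hC1 : Stmt_C1 := fun n k => main n k

end Pool.Agent.Helper61.SD
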