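import Pool.Agent.Helper77.SD.St
import Pool.Agent.Helper15.SD.M_MO2

/-! # Project SD, module WH: local approximation of `H¹_loc` functions -/

set_option autoImplicit false

namespace Pool.Agent.Helper61.SD

open MeasureTheory Metric Set
open scoped Gradient RealInnerProductSpace ENNReal
open Pool.Agent.Helper77.SD

variable {d : ℕ}

theorem WH_comp (v : E d → ℝ) (x : E d) (i : Fin d) :
    (∇ v x) i = fderiv ℝ v x (EuclideanSpace.single i (1 : ℝ)) := by
  have h := InnerProductSpace.toDual_symm_apply (𝕜 := ℝ) (x := EuclideanSpace.single i (1 : ℝ))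
    (y := fderiv ℝ v x)
  rw [← h]
  have h2 := EuclideanSpace.inner_single_right (𝕜 := ℝ) i (1 : ℝ)
    ((InnerProductSpace.toDual ℝ (E d)).symm (fderiv ℝ v x))
  rw [h2]
  simp [gradient]

/-- products with a bounded compactly supported factor -/
theorem WH_l2 {F F' : Type*} [NormedAddCommGroup F] [NormedAddCommGroup F'] {g : E d → F} {f : E d → F'}
    {ρ C : ℝ} (hg : MemLp g 2 (volume.restrict (ball (0 : E d) ρ)))
    (hf : AEStronglyMeasurable f (volume.restrict (ball (0 : E d) ρ)))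
    (h0 : ∀ x, ρ ≤ ‖x‖ → f x = 0) (hb : ∀ x, ‖f x‖ ≤ C * ‖g x‖) : L2 f := by
  have h1 : MemLp f 2 (volume.restrict (ball (0 : E d) ρ)) :=
    hg.of_le_mul hf (Filter.Eventually.of_forall hb)
  have h2 := (memLp_indicator_iff_restrict (p := 2) (μ := volume) (f := f)
    (measurableSet_ball (x := (0 : E d)) (ε := ρ))).2 h1
  have h3 : (ball (0 : E d) ρ).indicator f = f := by
    rw [Set.indicator_eq_self]
    intro x hx
    by_contra h
    rw [mem_ball_zero_iff, not_lt] at h
    exact hx (h0 x h)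
  rwa [h3] at h2

/-- components of square integrable fields -/
theorem WH_l2c {H : E d → E d} (hH : L2 H) (i : Fin d) : L2 (fun x => H x i) := by
  refine l2_of_le (K := 1) hH ?_ fun x => ?_
  · exact (EuclideanSpace.proj (𝕜 := ℝ) i).continuous.comp_aestronglyMeasurable hH.1
  · rw [one_mul]
    exact PiLp.norm_apply_le (H x) i

/-- the gradient of a product, in coordinates -/
theorem WH_prod {ζ ψ : E d → ℝ} (hζ : Differentiable ℝ ζ) (hψ : Differentiable ℝ ψ) (x : E d) (i : Fin d) :
    (∇ (fun y => ζ y * ψ y) x) i = ζ x * (∇ ψ x) i + ψ x * (∇ ζ x) i := by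
  rw [WH_comp, WH_comp, WH_comp]
  have h := fderiv_mul (hζ x) (hψ x)
  have h2 : fderiv ℝ (fun y => ζ y * ψ y) x = ζ x • fderiv ℝ ψ x + ψ x • fderiv ℝ ζ x := h
  rw [h2]
  simp

/-- the weak gradient of the truncated function -/
theorem WH_ibp {u : E d → ℝ} {G : E d → E d} (hw : WeakGrad u G) {ζ : E d → ℝ}
    (hζs : ContDiff ℝ (⊤ : ℕ∞) ζ) (hf : L2 (fun x => ζ x * u x))
    (hG : L2 (fun x => ζ x • G x)) (hU : L2 (fun x => u x • ∇ ζ x)) {ψ : E d → ℝ}
    (hψ : ContDiff ℝ (⊤ : ℕ∞) ψ) (hψc : HasCompactSupport ψ) (i : Fin d) :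
    ∫ x, (ζ x * u x) * (∇ ψ x) i = - ∫ x, (ζ x • G x + u x • ∇ ζ x) i * ψ x := by
  have h := hw.ibp (fun x => ζ x * ψ x) (hζs.mul hψ) hψc.mul_left i
  have hdζ : Differentiable ℝ ζ := hζs.differentiable (by simp)
  have hdψ : Differentiable ℝ ψ := hψ.differentiable (by simp)
  have hψ1 : ContDiff ℝ 1 ψ := hψ.of_le (by exact_mod_cast le_top)
  have i1 : Integrable (fun x => (ζ x * u x) * (∇ ψ x) i) :=
    integrable_mul hf (WH_l2c (l2_grad hψ1 hψc) i)
  have lψ : L2 ψ := l2_of_compact hψ.continuous hψc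
  have i2 : Integrable (fun x => (u x • ∇ ζ x) i * ψ x) := integrable_mul (WH_l2c hU i) lψ
  have i3 : Integrable (fun x => (ζ x • G x) i * ψ x) := integrable_mul (WH_l2c hG i) lψ
  have e1 : ∫ x, u x * (∇ (fun y => ζ y * ψ y) x) i =
      (∫ x, (ζ x * u x) * (∇ ψ x) i) + ∫ x, (u x • ∇ ζ x) i * ψ x := by
    rw [← integral_add i1 i2]
    refine integral_congr_ae (Filter.Eventually.of_forall fun x => ?_)
    simp only
    rw [WH_prod hdζ hdψ]
    simp only [PiLp.smul_apply, smul_eq_mul]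
    ring
  have e2 : ∫ x, G x i * (ζ x * ψ x) = ∫ x, (ζ x • G x) i * ψ x := by
    refine integral_congr_ae (Filter.Eventually.of_forall fun x => ?_)
    simp only [PiLp.smul_apply, smul_eq_mul]
    ring
  have e3 : ∫ x, (ζ x • G x + u x • ∇ ζ x) i * ψ x =
      (∫ x, (ζ x • G x) i * ψ x) + ∫ x, (u x • ∇ ζ x) i * ψ x := by
    rw [← integral_add i3 i2]
    refine integral_congr_ae (Filter.Eventually.of_forall fun x => ?_)
    simp only [PiLp.add_apply]
    ring
  rw [e1, e2] at h
  rw [e3]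
  linarith

/-- the gradient of a mollification -/
theorem WH_grad {f : E d → ℝ} {F : E d → E d} (hf : L2 f)
    (hibp : ∀ ψ : E d → ℝ, ContDiff ℝ (⊤ : ℕ∞) ψ → HasCompactSupport ψ → ∀ i : Fin d,
      ∫ x, f x * (∇ ψ x) i = - ∫ x, F x i * ψ x) (φ : ContDiffBump (0 : E d)) (x : E d) (i : Fin d) :
    (∇ (convolution (φ.normed volume) f (ContinuousLinearMap.lsmul ℝ ℝ) volume) x) i =
      convolution (φ.normed volume) (fun y => F y i) (ContinuousLinearMap.lsmul ℝ ℝ) volume x := by
  have hloc : LocallyIntegrable f volume := hf.locallyIntegrable (by norm_num)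
  have hρ : ContDiff ℝ (⊤ : ℕ∞) (φ.normed volume) := φ.contDiff_normed
  have hρc : HasCompactSupport (φ.normed volume) := φ.hasCompactSupport_normed
  have hd : Differentiable ℝ (φ.normed volume) := hρ.differentiable (by simp)
  rw [WH_comp]
  have h1 := HasCompactSupport.hasFDerivAt_convolution_left (𝕜 := ℝ) (ContinuousLinearMap.lsmul ℝ ℝ)
    hρc (hρ.of_le (by exact_mod_cast le_top)) hloc x
  rw [h1.fderiv, convolution_def]
  have hex : ConvolutionExistsAt (fderiv ℝ (φ.normed volume)) f x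
      ((ContinuousLinearMap.lsmul ℝ ℝ : ℝ →L[ℝ] ℝ →L[ℝ] ℝ).precompL (E d)) volume :=
    (hρc.fderiv (𝕜 := ℝ)).convolutionExists_left _ (hρ.continuous_fderiv (by simp)) hloc x
  rw [ContinuousLinearMap.integral_apply hex]
  have e1 : ∀ t, (((ContinuousLinearMap.lsmul ℝ ℝ : ℝ →L[ℝ] ℝ →L[ℝ] ℝ).precompL (E d))
      (fderiv ℝ (φ.normed volume) t) (f (x - t))) (EuclideanSpace.single i (1 : ℝ)) =
      fderiv ℝ (φ.normed volume) t (EuclideanSpace.single i (1 : ℝ)) * f (x - t) := by
    intro t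
    rw [ContinuousLinearMap.precompL_apply]
    simp
  simp_rw [e1]
  -- the test function
  set ψ : E d → ℝ := fun y => φ.normed volume (x - y) with hψ
  have hψs : ContDiff ℝ (⊤ : ℕ∞) ψ := hρ.comp (contDiff_const.sub contDiff_id)
  have hψc : HasCompactSupport ψ := by
    have := hρc.comp_homeomorph (Homeomorph.subLeft x)
    exact this
  have hgr : ∀ y, (∇ ψ y) i = - fderiv ℝ (φ.normed volume) (x - y) (EuclideanSpace.single i (1 : ℝ)) := by
    intro y
    rw [WH_comp]
    have h2 : HasFDerivAt (fun y => x - y) (-(ContinuousLinearMap.id ℝ (E d))) y := by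
      simpa using (hasFDerivAt_id y).const_sub x
    have h3 := (hd (x - y)).hasFDerivAt.comp y h2
    have h4 : fderiv ℝ ψ y = _ := h3.fderiv
    rw [h4]
    simp
  have h5 := hibp ψ hψs hψc i
  simp_rw [hgr] at h5
  have e2 : ∫ t, fderiv ℝ (φ.normed volume) t (EuclideanSpace.single i (1 : ℝ)) * f (x - t) =
      ∫ y, fderiv ℝ (φ.normed volume) (x - y) (EuclideanSpace.single i (1 : ℝ)) * f y := by
    have := integral_sub_left_eq_self (fun y => fderiv ℝ (φ.normed volume) (x - y)
      (EuclideanSpace.single i (1 : ℝ)) * f y) volume x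
    rw [← this]
    refine integral_congr_ae (Filter.Eventually.of_forall fun t => ?_)
    simp
  have e3 : ∫ t, φ.normed volume t * F (x - t) i = ∫ y, F y i * ψ y := by
    have := integral_sub_left_eq_self (fun y => F y i * ψ y) volume x
    rw [← this]
    refine integral_congr_ae (Filter.Eventually.of_forall fun t => ?_)
    simp only [hψ, sub_sub_cancel]
    ring
  have e4 : ∫ y, f y * - fderiv ℝ (φ.normed volume) (x - y) (EuclideanSpace.single i (1 : ℝ)) =
      - ∫ y, fderiv ℝ (φ.normed volume) (x - y) (EuclideanSpace.single i (1 : ℝ)) * f y := by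
    rw [← integral_neg]
    refine integral_congr_ae (Filter.Eventually.of_forall fun t => ?_)
    simp only
    ring
  rw [convolution_def]
  have e5 : ∫ t, (ContinuousLinearMap.lsmul ℝ ℝ : ℝ →L[ℝ] ℝ →L[ℝ] ℝ) (φ.normed volume t) (F (x - t) i) =
      ∫ t, φ.normed volume t * F (x - t) i := rfl
  rw [e5, e3, e2]
  rw [e4] at h5
  linarith

theorem WH_min (r0 : ℝ) (hr0 : 0 < r0) (r : Fin d → ℝ) (hr : ∀ i, 0 < r i) :
    ∃ s : ℝ, 0 < s ∧ s ≤ r0 ∧ ∀ i, s ≤ r i := by
  have hne : (insert r0 (Finset.univ.image r)).Nonempty := ⟨r0, Finset.mem_insert_self _ _⟩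
  refine ⟨(insert r0 (Finset.univ.image r)).min' hne, ?_, ?_, ?_⟩
  · rw [Finset.lt_min'_iff]
    intro y hy
    rw [Finset.mem_insert, Finset.mem_image] at hy
    rcases hy with rfl | ⟨i, -, rfl⟩
    · exact hr0
    · exact hr i
  · exact Finset.min'_le _ _ (Finset.mem_insert_self _ _)
  · intro i
    exact Finset.min'_le _ _ (Finset.mem_insert_of_mem (Finset.mem_image_of_mem _ (Finset.mem_univ i)))

theorem hWH (h1 : StMO2) (h2 : StCUT) : StWH := by
  intro d u G hw R ε hε
  obtain ⟨K, hK, hcut⟩ := h2 d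
  set R' : ℝ := max R 1 with hR'
  have hR1 : 1 ≤ R' := le_max_right _ _
  have hRR : R ≤ R' := le_max_left _ _
  obtain ⟨ζ, hζs, hζc, hζ01, hζ1, hζ0, hζK⟩ := hcut R' hR1
  have hζa : ∀ x, ‖ζ x‖ ≤ 1 := by
    intro x
    rw [Real.norm_eq_abs, abs_le]
    have := hζ01 x
    constructor <;> linarith
  have hζ1c : ContDiff ℝ 1 ζ := hζs.of_le (by exact_mod_cast le_top)
  -- the gradient vanishes outside the ball
  have hts : tsupport ζ ⊆ closedBall (0 : E d) (2 * R') := by
    refine closure_minimal ?_ isClosed_closedBall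
    intro x hx
    rw [mem_closedBall_zero_iff]
    by_contra h
    exact hx (hζ0 x (not_le.1 h).le)
  have hgz : ∀ x, 2 * R' + 1 ≤ ‖x‖ → ∇ ζ x = 0 := by
    intro x hx
    have h3 : fderiv ℝ ζ x = 0 := by
      by_contra h
      have h4 : x ∈ tsupport ζ := support_fderiv_subset ℝ h
      have h5 := hts h4
      rw [mem_closedBall_zero_iff] at h5
      linarith
    rw [gradient, h3, map_zero]
  have hlu := hw.loc (2 * R' + 1)
  have hlG := hw.locG (2 * R' + 1)
  have hf : L2 (fun x => ζ x * u x) := by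
    refine WH_l2 (C := 1) hlu (hζs.continuous.aestronglyMeasurable.mul hlu.1) ?_ ?_
    · intro x hx
      rw [hζ0 x (by linarith), zero_mul]
    · intro x
      rw [norm_mul]
      exact mul_le_mul_of_nonneg_right (hζa x) (norm_nonneg _)
  have hG : L2 (fun x => ζ x • G x) := by
    refine WH_l2 (C := 1) hlG (hζs.continuous.aestronglyMeasurable.smul hlG.1) ?_ ?_
    · intro x hx
      rw [hζ0 x (by linarith), zero_smul]
    · intro x
      rw [norm_smul]
      exact mul_le_mul_of_nonneg_right (hζa x) (norm_nonneg _)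
  have hU : L2 (fun x => u x • ∇ ζ x) := by
    refine WH_l2 (C := K / R') hlu (hlu.1.smul (continuous_grad hζ1c).aestronglyMeasurable) ?_ ?_
    · intro x hx
      rw [hgz x hx, smul_zero]
    · intro x
      rw [norm_smul, mul_comm]
      exact mul_le_mul_of_nonneg_right (hζK x) (norm_nonneg _)
  set f : E d → ℝ := fun x => ζ x * u x with hfd
  set F : E d → E d := fun x => ζ x • G x + u x • ∇ ζ x with hFd
  have hF : L2 F := hG.add hU
  have hibp : ∀ ψ : E d → ℝ, ContDiff ℝ (⊤ : ℕ∞) ψ → HasCompactSupport ψ → ∀ i : Fin d,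
      ∫ x, f x * (∇ ψ x) i = - ∫ x, F x i * ψ x :=
    fun ψ h h' i => WH_ibp hw hζs hf hG hU h h' i
  -- the radius
  set e : ℝ := √(ε / (d + 1)) with he
  have hd1 : (0 : ℝ) < d + 1 := by positivity
  have he0 : 0 < e := Real.sqrt_pos.2 (by positivity)
  have he2 : e ^ 2 = ε / (d + 1) := Real.sq_sqrt (by positivity)
  obtain ⟨r0, hr0, hr0'⟩ := h1 d f hf e he0
  choose r hr hr' using fun i : Fin d => h1 d (fun x => F x i) (WH_l2c hF i) e he0
  obtain ⟨s, hs, hs0, hsi⟩ := WH_min r0 hr0 r hr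
  let φ : ContDiffBump (0 : E d) := ⟨s / 4, s / 2, by positivity, by linarith⟩
  have hφ : φ.rOut = s / 2 := rfl
  have k0 := hr0' φ (by rw [hφ]; linarith)
  have ki : ∀ i, _ := fun i => hr' i φ (by rw [hφ]; have := hsi i; linarith)
  have hρc : HasCompactSupport (φ.normed volume) := φ.hasCompactSupport_normed
  have hloc : LocallyIntegrable f volume := hf.locallyIntegrable (by norm_num)
  set v : E d → ℝ := convolution (φ.normed volume) f (ContinuousLinearMap.lsmul ℝ ℝ) volume with hv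
  have hvs : ContDiff ℝ 1 v := hρc.contDiff_convolution_left _ φ.contDiff_normed hloc
  have hgr : ∀ x i, (∇ v x) i = convolution (φ.normed volume) (fun y => F y i)
      (ContinuousLinearMap.lsmul ℝ ℝ) volume x := fun x i => WH_grad hf hibp φ x i
  have hmo := Pool.Agent.Helper15.SD.hMO1
  have hLv : L2 (fun x => v x - f x) := ((hmo d φ f hf).1).sub hf
  have hLi : ∀ i, L2 (fun x => (∇ v x) i - F x i) := by
    intro i
    have h3 := ((hmo d φ _ (WH_l2c hF i)).1).sub (WH_l2c hF i)
    have h4 : (fun x => (∇ v x) i - F x i) = (fun x => convolution (φ.normed volume) (fun y => F y i)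
      (ContinuousLinearMap.lsmul ℝ ℝ) volume x - F x i) := by
      funext x
      rw [hgr]
    rw [h4]
    exact h3
  refine ⟨v, hvs, ?_, ?_⟩
  · have e1 : ∫ x in ball (0 : E d) R, (v x - u x) ^ 2 = ∫ x in ball (0 : E d) R, ‖v x - f x‖ ^ 2 := by
      refine setIntegral_congr_fun measurableSet_ball fun x hx => ?_
      rw [mem_ball_zero_iff] at hx
      simp only [hfd]
      rw [hζ1 x (by linarith), one_mul, Real.norm_eq_abs, sq_abs]
    have e2 : ∫ x in ball (0 : E d) R, ‖v x - f x‖ ^ 2 ≤ ∫ x, ‖v x - f x‖ ^ 2 :=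
      setIntegral_le_integral (integrable_sq hLv) (Filter.Eventually.of_forall fun _ => sq_nonneg _)
    have e3 : ∫ x, ‖v x - f x‖ ^ 2 < e ^ 2 := by
      rw [← nrm_sq]
      exact pow_lt_pow_left₀ k0 (nrm_nonneg _) two_ne_zero
    have e4 : e ^ 2 ≤ ε := by
      rw [he2, div_le_iff₀ hd1]
      have : (0 : ℝ) ≤ d := Nat.cast_nonneg _
      nlinarith
    rw [e1]
    linarith
  · have hζe : ∀ x, ‖x‖ < R' → ∇ ζ x = 0 := by
      intro x hx
      have h3 : ζ =ᶠ[nhds x] fun _ => (1 : ℝ) := by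
        have : ball (0 : E d) R' ∈ nhds x := isOpen_ball.mem_nhds (by rwa [mem_ball_zero_iff])
        filter_upwards [this] with y hy
        rw [mem_ball_zero_iff] at hy
        exact hζ1 y hy.le
      rw [gradient, h3.fderiv_eq]
      simp
    have e1 : ∫ x in ball (0 : E d) R, ‖∇ v x - G x‖ ^ 2 = ∫ x in ball (0 : E d) R, ‖∇ v x - F x‖ ^ 2 := by
      refine setIntegral_congr_fun measurableSet_ball fun x hx => ?_
      rw [mem_ball_zero_iff] at hx
      simp only [hFd]
      rw [hζ1 x (by linarith), hζe x (by linarith), one_smul, smul_zero, add_zero]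
    have e5 : ∀ x, ‖∇ v x - F x‖ ^ 2 = ∑ i, ‖(∇ v x) i - F x i‖ ^ 2 := by
      intro x
      rw [EuclideanSpace.norm_sq_eq]
      rfl
    have hint : ∀ i, Integrable (fun x => ‖(∇ v x) i - F x i‖ ^ 2) := fun i => integrable_sq (hLi i)
    have hint2 : Integrable (fun x => ‖∇ v x - F x‖ ^ 2) := by
      simp_rw [e5]
      exact integrable_finsetSum _ fun i _ => hint i
    have e2 : ∫ x in ball (0 : E d) R, ‖∇ v x - F x‖ ^ 2 ≤ ∫ x, ‖∇ v x - F x‖ ^ 2 :=
      setIntegral_le_integral hint2 (Filter.Eventually.of_forall fun _ => sq_nonneg _)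
    have e3 : ∫ x, ‖∇ v x - F x‖ ^ 2 ≤ ∑ _i : Fin d, e ^ 2 := by
      simp_rw [e5]
      rw [integral_finsetSum _ fun i _ => hint i]
      refine Finset.sum_le_sum fun i _ => ?_
      have h4 := ki i
      have h5 : (fun x => (∇ v x) i - F x i) = (fun x => convolution (φ.normed volume) (fun y => F y i)
        (ContinuousLinearMap.lsmul ℝ ℝ) volume x - F x i) := by
        funext x
        rw [hgr]
      rw [← nrm_sq (fun x => (∇ v x) i - F x i), h5]
      exact pow_le_pow_left₀ (nrm_nonneg _) h4.le 2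
    have e4 : ∑ _i : Fin d, e ^ 2 < ε := by
      rw [Finset.sum_const, Finset.card_univ, Fintype.card_fin, nsmul_eq_mul, he2, mul_div_assoc', div_lt_iff₀ hd1]
      nlinarith
    rw [e1]
    linarith

end Pool.Agent.Helper61.SD
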